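import Pool.Agent.H35.EX.BIRd

/-!
# Test polynomials over primes of the larger dilation: the bilinear estimate
-/

set_option autoImplicit false

open Complex MeasureTheory Set Filter Topology

namespace Pool.Agent.H35.EX

open Pool.Agent.H29.EX Pool.Agent.H25.DP Pool.Agent.H25.DL Pool.Agent.H23.GLH

/-- the integral as an average of a product of two Dirichlet polynomials -/
theorem AQ_eq {ι : Type} [Fintype ι] (f : ι → Fac) (Y : ℂ → ℂ) (j : ι → ℕ) (r : ℝ) (X : ℕ)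
    (ρ : ℕ → ℂ) (H W y : ℝ) (s1 s2 s3 : Finset ℕ) (c c' β : ℕ → ℂ)
    (hPj : ∀ t : ℝ, Pj f j (1 / 2 + t * I) =
      (∑ n ∈ s1, c n * en n (r * t)) * ∑ n ∈ s2, c' n * en n (1 * t))
    (hβ : ∀ s : ℝ, (∑ m ∈ s1, c m * en m s) *
      (∑ p ∈ Finset.Ico X (2 * X), (ρ p * en p (-(r * y))) * en p s) =
        ∑ l ∈ s3, β l * en l s) :
    AQ f Y j r X ρ H W y = ∫ u in H..(H + W), (om ((u - H) / W) : ℂ) *
      ((∑ n ∈ s2, c' n * en n (u + y)) * (∑ l ∈ s3, β l * en l (r * (u + y))) *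
        Y (1 / 2 + (u + y : ℝ) * I)) := by
  unfold AQ
  congr 1
  funext u
  rw [hPj, TQ_shift r X ρ u y, ← hβ (r * (u + y)), one_mul]
  ring

theorem pf_BIR (h1 : T_BLR) (h2 : T_XPS) (h3 : T_PX) (h4 : T_IOA) (h5 : T_IOB) : T_BIR := by
  classical
  intro ι _ f Y d t₀ r ω₁ ω₂ D hY hd0 hd2 hr hdr1 hdr2 hcl hω₁ _ hω₂ hD0 hD1
  obtain ⟨κ, B, η, C, hκ, hmain⟩ := hY.main
  obtain ⟨z, hz0, hz1, hexp⟩ := expo hr hdr1 hdr2 hω₁ hD1
  set e : ℝ := z / 24 with he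
  have he0 : 0 < e := by positivity
  obtain ⟨CP, hCP, hP⟩ := Pool.Agent.H19.DP.BIL.two_forms h3 f r e hcl he0
  set q : ℕ := Fintype.card ι + 1 with hq
  obtain ⟨CM, hCM, hM⟩ := mulpoly he0 (2 ^ q) Nat.one_le_two_pow
  obtain ⟨CX, TX, hCX, hX⟩ := h2 Y d B η t₀ C r κ hY.diff hmain
  obtain ⟨Q, TQ', hQ, hS⟩ := Sbound (C₁ := CP) (C₂ := CM * CP) h1 h4 h5 B η q (2 * 2 ^ q) hd0 hd2
    hr hz0 hz1 he0 hCP (by positivity) hexp
  set J : ℝ := 2 ^ q with hJ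
  set Q' : ℝ := CX * (1 / 2) * (J * (2 * J)) * (CP * (CM * CP)) + 2 * Q with hQ'
  have hQ'0 : 0 < Q' := by positivity
  obtain ⟨T₁, hT₁⟩ := eventually_atTop.1
    ((tendsto_rpow_atTop (show 0 < z / 8 by positivity)).eventually_ge_atTop Q')
  refine ⟨z / 4, max (max TX TQ') (max T₁ 1), by positivity, fun T hT j hj X ρ y hXT hXT' hρ hy => ?_⟩
  have hTX : TX ≤ T := ((le_max_left _ _).trans (le_max_left _ _)).trans hT
  have hTQ : TQ' ≤ T := ((le_max_right _ _).trans (le_max_left _ _)).trans hT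
  have hTT : T₁ ≤ T := ((le_max_left _ _).trans (le_max_right _ _)).trans hT
  have hT1 : 1 ≤ T := ((le_max_right _ _).trans (le_max_right _ _)).trans hT
  have hT0 : 0 < T := by linarith
  have hlog0 : 0 ≤ Real.log T := Real.log_nonneg hT1
  obtain ⟨c, c', hc, hc', hPj⟩ := hP j
  have hmains := Pool.Agent.H19.DP.BIL.mains_log f r D T hcl j hj
  have hM1 := SZ_pos (fun l : {l // (f l).r = r} => j l)
  have hK1 := SZ_pos (fun l : {l // ¬ (f l).r = r} => j l)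
  generalize SZ (fun l : {l // (f l).r = r} => j l) = M at hc hPj hmains hM1
  generalize SZ (fun l : {l // ¬ (f l).r = r} => j l) = K at hc' hPj hmains hK1
  have hXpos : 1 ≤ X := by
    have h : (1 : ℝ) ≤ X := (Real.one_le_rpow hT1 hω₁.le).trans hXT
    exact_mod_cast h
  have hm1 : (1 : ℝ) ≤ M := by exact_mod_cast hM1
  have hk1 : (1 : ℝ) ≤ K := by exact_mod_cast hK1
  have hx1 : (1 : ℝ) ≤ X := by exact_mod_cast hXpos
  have hL1 : 1 ≤ M * X := Nat.one_le_iff_ne_zero.2 (Nat.mul_ne_zero (by omega) (by omega))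
  obtain ⟨β, hβ, hβe⟩ := hM M X c (fun p => ρ p * en p (-(r * y))) (CP * (M : ℝ) ^ (e - 1 / 2))
    ((X : ℝ) ^ (-(1 / 2) : ℝ)) hM1 hXpos (by positivity) (by positivity) hc (fun p => by
      rw [norm_mul, norm_en, mul_one]
      exact hρ p)
  have hβ2 : ∀ l, ‖β l‖ ≤ (CM * CP) * ((M * X : ℕ) : ℝ) ^ (2 * e - 1 / 2) := by
    intro l
    refine (hβ l).trans ?_
    push_cast
    exact coefb hm1 hx1 he0 hCM.le hCP.le
  -- logarithms
  have hlm : 0 ≤ Real.log M := Real.log_nonneg hm1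
  have hlk : 0 ≤ Real.log K := Real.log_nonneg hk1
  have hlx : 0 ≤ Real.log X := Real.log_nonneg hx1
  have hlX1 : ω₁ * Real.log T ≤ Real.log X := by
    rw [← Real.log_rpow hT0]
    exact Real.log_le_log (by positivity) hXT
  have hlX2 : Real.log X ≤ ω₂ * Real.log T := by
    rw [← Real.log_rpow hT0]
    exact Real.log_le_log (by linarith) hXT'
  have hlL : Real.log ((M * X : ℕ) : ℝ) = Real.log M + Real.log X := by
    push_cast
    rw [Real.log_mul (by linarith) (by linarith)]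
  have hrm : Real.log M ≤ r * Real.log M := le_mul_of_one_le_left hlm hr.le
  have hDT : D * Real.log T ≤ 1 * Real.log T := mul_le_mul_of_nonneg_right hD1.le hlog0
  have hωT : ω₂ * Real.log T ≤ 1 / 2 * Real.log T :=
    mul_le_mul_of_nonneg_right (by linarith) hlog0
  have hKL : Real.log K + Real.log ((M * X : ℕ) : ℝ) ≤ 3 / 2 * Real.log T := by
    rw [hlL]
    linarith
  have hl1 : (1 : ℝ) ≤ ((M * X : ℕ) : ℝ) := by exact_mod_cast hL1
  have hSb := hS T hTQ y K (M * X) c' β hy hK1 hL1 (by linarith) (by rw [hlL]; linarith) hKL hc'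
    hβ2
  have hXb := hX T hTX (Finset.Ico K (2 ^ q * K))
    (Finset.Ico (M * X) (2 * 2 ^ q * (M * X))) c' β (5 * T / 4) (T / 2) y (by linarith)
    (by linarith) (by linarith) hy
  rw [← AQ_eq f Y j r X ρ (5 * T / 4) (T / 2) y _ _ _ c c' β hPj hβe] at hXb
  have hn := num0 hT1 hk1 hl1 he0 hKL
  have hs1 := sum_coef (c := c') K (2 ^ q) (by positivity) hc'
  have hs2 := sum_coef (c := β) (M * X) (2 * 2 ^ q) (by positivity) hβ2
  have hJc : ((2 ^ q : ℕ) : ℝ) = J := by push_cast; rfl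
  have hJc2 : ((2 * 2 ^ q : ℕ) : ℝ) = 2 * J := by push_cast; rfl
  rw [hJc] at hs1
  rw [hJc2] at hs2
  generalize ((M * X : ℕ) : ℝ) = L at hn hs2 hl1
  have hhalf : T / 2 / T = 1 / 2 := by field_simp
  rw [hhalf] at hXb
  have hE : CX * (1 / 2) * (∑ n ∈ Finset.Ico K (2 ^ q * K), ‖c' n‖) *
      (∑ l ∈ Finset.Ico (M * X) (2 * 2 ^ q * (M * X)), ‖β l‖) ≤
      CX * (1 / 2) * (J * (2 * J)) * (CP * (CM * CP)) * T ^ (3 / 4 + 3 * e) := by
    have h6 : 0 ≤ ∑ l ∈ Finset.Ico (M * X) (2 * 2 ^ q * (M * X)), ‖β l‖ :=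
      Finset.sum_nonneg fun _ _ => norm_nonneg _
    calc CX * (1 / 2) * (∑ n ∈ Finset.Ico K (2 ^ q * K), ‖c' n‖) *
        (∑ l ∈ Finset.Ico (M * X) (2 * 2 ^ q * (M * X)), ‖β l‖) ≤
        CX * (1 / 2) * (J * K * (CP * (K : ℝ) ^ (e - 1 / 2))) *
          (2 * J * L * (CM * CP * L ^ (2 * e - 1 / 2))) := by
          refine mul_le_mul ?_ hs2 h6 (by positivity)
          exact mul_le_mul_of_nonneg_left hs1 (by positivity)
      _ = CX * (1 / 2) * (J * (2 * J)) * (CP * (CM * CP)) *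
          ((K : ℝ) ^ (e - 1 / 2) * L ^ (2 * e - 1 / 2) * (K * L)) := by ring
      _ ≤ _ := by gcongr
  have hκS : ∀ S : ℂ, ‖κ * S‖ = ‖S‖ := fun S => by rw [norm_mul, hκ, one_mul]
  have h9 : ‖AQ f Y j r X ρ (5 * T / 4) (T / 2) y‖ ≤
      CX * (1 / 2) * (J * (2 * J)) * (CP * (CM * CP)) * T ^ (3 / 4 + 3 * e) +
        Q * (T ^ (3 / 4 + 3 * e) + T ^ (1 - z / 2 + 3 * e)) := by
    have h10 := norm_add_le (AQ f Y j r X ρ (5 * T / 4) (T / 2) y -
      κ * ∑ n ∈ Finset.Ico K (2 ^ q * K), ∑ l ∈ Finset.Ico (M * X) (2 * 2 ^ q * (M * X)),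
        c' n * β l * IO d B η (5 * T / 4) (T / 2) y (Real.log n + r * Real.log l))
      (κ * ∑ n ∈ Finset.Ico K (2 ^ q * K), ∑ l ∈ Finset.Ico (M * X) (2 * 2 ^ q * (M * X)),
        c' n * β l * IO d B η (5 * T / 4) (T / 2) y (Real.log n + r * Real.log l))
    rw [sub_add_cancel, hκS] at h10
    exact h10.trans (add_le_add (hXb.trans hE) hSb)
  have h11 : T ^ (3 / 4 + 3 * e) ≤ T ^ (1 - 3 * z / 8) :=
    Real.rpow_le_rpow_of_exponent_le hT1 (by rw [he]; linarith)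
  have h12 : T ^ (1 - z / 2 + 3 * e) = T ^ (1 - 3 * z / 8) := by
    congr 1
    rw [he]
    ring
  rw [h12] at h9
  have h13 : T ^ (1 - z / 4) = T ^ (z / 8) * T ^ (1 - 3 * z / 8) := by
    rw [← Real.rpow_add hT0]
    congr 1
    ring
  have h14 : 0 ≤ T ^ (1 - 3 * z / 8) := by positivity
  calc ‖AQ f Y j r X ρ (5 * T / 4) (T / 2) y‖ ≤
      CX * (1 / 2) * (J * (2 * J)) * (CP * (CM * CP)) * T ^ (1 - 3 * z / 8) +
        Q * (T ^ (1 - 3 * z / 8) + T ^ (1 - 3 * z / 8)) := by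
        refine h9.trans ?_
        gcongr
    _ = Q' * T ^ (1 - 3 * z / 8) := by rw [hQ']; ring
    _ ≤ T ^ (z / 8) * T ^ (1 - 3 * z / 8) := mul_le_mul_of_nonneg_right (hT₁ T hTT) h14
    _ = T ^ (1 - z / 4) := h13.symm

end Pool.Agent.H35.EX
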