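import Pool.Agent.H29.EX.Targets
import Pool.Agent.H19.DP.BIL
import Pool.Agent.H89.Cubic.Div

/-!
# Test polynomials over primes of the larger dilation: tools for the bilinear estimate
-/

set_option autoImplicit false

open Complex MeasureTheory Set Filter Topology

namespace Pool.Agent.H35.EX

open Pool.Agent.H29.EX Pool.Agent.H25.DP Pool.Agent.H25.DL Pool.Agent.H23.GLH

/-! ### The exponents -/

/-- the choice of the bound, in terms of the exponents -/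
theorem expo {d r ω₁ D : ℝ} (hr : 1 < r) (h1 : 3 * d < 2 * r + 1) (h2 : 6 * d < 3 * r + 4)
    (hω : 0 < ω₁) (hD : D < 1) : ∃ z : ℝ, 0 < z ∧ z ≤ 1 / 4 ∧ ∀ ν l : ℝ, 0 ≤ ν → ν ≤ D → ω₁ ≤ l →
    |ν + r * l - d| ≤ z → ν + l ≤ 1 - z ∨
      (1 < d ∧ ν ≤ 1 - z ∧ l ≤ 1 / 2 - z ∧ ν + l ≤ 3 / 2 - z) ∨
      (1 < d ∧ ν ≤ 1 - z ∧ l + ν / 2 ≤ 5 / 6 - z ∧ ν + l ≤ 7 / 6 - z) := by
  set μ₁ := (3 * r + 4 - 6 * d) / 6 with hμ₁
  set μ₂ := 2 * r + 1 - 3 * d with hμ₂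
  obtain ⟨s, hs⟩ : ∃ s, s = r - 1 := ⟨_, rfl⟩
  have hs0 : 0 < s := by linarith
  have hm1 : 0 < μ₁ := by rw [hμ₁]; linarith
  have hm2 : 0 < μ₂ := by rw [hμ₂]; linarith
  set z := min (min (1 / 4) (1 - D)) (min (μ₁ / (3 + s)) (min (μ₂ / 9) (s * ω₁ / 2))) with hz
  have hz1 : z ≤ 1 / 4 := (min_le_left _ _).trans (min_le_left _ _)
  have hz2 : z ≤ 1 - D := (min_le_left _ _).trans (min_le_right _ _)
  have hz3 : z * (3 + s) ≤ μ₁ := by
    rw [← le_div_iff₀ (by linarith)]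
    exact (min_le_right _ _).trans (min_le_left _ _)
  have hz4 : z ≤ μ₂ / 9 :=
    (min_le_right _ _).trans ((min_le_right _ _).trans (min_le_left _ _))
  have hz5 : z ≤ s * ω₁ / 2 :=
    (min_le_right _ _).trans ((min_le_right _ _).trans (min_le_right _ _))
  have hz0 : 0 < z := by
    refine lt_min (lt_min (by norm_num) (by linarith)) (lt_min (by positivity)
      (lt_min (by positivity) (by positivity)))
  clear_value z
  refine ⟨z, hz0, hz1, fun ν l hν hνD hl hwin => ?_⟩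
  obtain ⟨w1, w2⟩ := abs_le.1 hwin
  obtain rfl : r = 1 + s := by linarith
  have e1 : ν + (1 + s) * l = ν + l + s * l := by ring
  rw [e1] at w1 w2
  have hsl : s * ω₁ ≤ s * l := mul_le_mul_of_nonneg_left hl hs0.le
  by_cases hd : d ≤ 1
  · left
    linarith
  push Not at hd
  by_cases ha : ν + l ≤ 1 - z
  · exact Or.inl ha
  by_cases hb : l ≤ 1 / 2 - z
  · exact Or.inr (Or.inl ⟨hd, by linarith, hb, by linarith⟩)
  push Not at ha hb
  refine Or.inr (Or.inr ⟨hd, by linarith, ?_, ?_⟩)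
  · by_cases hs1 : 1 ≤ s
    · have p1 : 0 ≤ (s - 1) * (l - (1 / 2 - z)) := mul_nonneg (by linarith) (by linarith)
      have p2 : (s - 1) * (l - (1 / 2 - z)) = s * l - l - s / 2 + 1 / 2 + s * z - z := by ring
      have p3 : z * (3 + s) = 3 * z + s * z := by ring
      rw [hμ₁] at hz3
      linarith
    · push Not at hs1
      have q1 : s * l ≤ d - 1 + 2 * z := by linarith
      have q2 : (1 - s) * (s * l) ≤ (1 - s) * (d - 1 + 2 * z) :=
        mul_le_mul_of_nonneg_left q1 (by linarith)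
      have q3 : s * (l + ν / 2) ≤ s * (5 / 6 - z) := by
        have q4 : s * (ν + l + s * l) ≤ s * (d + z) := mul_le_mul_of_nonneg_left (by linarith) hs0.le
        rw [hμ₂] at hz4
        nlinarith [mul_nonneg hs0.le hz0.le]
      exact le_of_mul_le_mul_left q3 hs0
  · have p1 : s * (1 / 2 - z) ≤ s * l := mul_le_mul_of_nonneg_left hb.le hs0.le
    have p3 : z * (3 + s) = 3 * z + s * z := by ring
    rw [hμ₁] at hz3
    nlinarith

/-! ### Products of Dirichlet polynomials -/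

/-- the product of two Dirichlet polynomials, one over a dyadic interval -/
theorem mulpoly {e : ℝ} (he : 0 < e) (J : ℕ) (hJ : 1 ≤ J) : ∃ C : ℝ, 0 < C ∧
    ∀ (M X : ℕ) (c ρ : ℕ → ℂ) (a b : ℝ), 1 ≤ M → 1 ≤ X → 0 ≤ a → 0 ≤ b → (∀ m, ‖c m‖ ≤ a) →
      (∀ p, ‖ρ p‖ ≤ b) → ∃ β : ℕ → ℂ, (∀ l, ‖β l‖ ≤ C * ((M * X : ℕ) : ℝ) ^ e * (a * b)) ∧
      ∀ s : ℝ, (∑ m ∈ Finset.Ico M (J * M), c m * en m s) *
        (∑ p ∈ Finset.Ico X (2 * X), ρ p * en p s) =
        ∑ l ∈ Finset.Ico (M * X) ((2 * J) * (M * X)), β l * en l s := by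
  classical
  obtain ⟨C₀, hC₀, hdiv⟩ := Pool.Agent.H89.Cubic.div_bound e he
  refine ⟨C₀ * (2 * J : ℝ) ^ e, by positivity, fun M X c ρ a b hM hX ha hb hc hρ => ?_⟩
  set S := Finset.Ico M (J * M) ×ˢ Finset.Ico X (2 * X) with hS
  have hSm : ∀ z ∈ S, M * X ≤ z.1 * z.2 ∧ z.1 * z.2 < (2 * J) * (M * X) ∧ z.1 ≠ 0 ∧ z.2 ≠ 0 := by
    intro z hz
    rw [hS, Finset.mem_product, Finset.mem_Ico, Finset.mem_Ico] at hz
    obtain ⟨⟨h1, h2⟩, h3, h4⟩ := hz
    refine ⟨Nat.mul_le_mul h1 h3, ?_, by omega, by omega⟩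
    calc z.1 * z.2 < (J * M) * (2 * X) := Nat.mul_lt_mul'' h2 h4
      _ = (2 * J) * (M * X) := by ring
  refine ⟨fun n => ∑ z ∈ S with z.1 * z.2 = n, c z.1 * ρ z.2, fun n => ?_, fun s => ?_⟩
  · rcases (S.filter fun z : ℕ × ℕ => z.1 * z.2 = n).eq_empty_or_nonempty with he' | ⟨z₀, hz₀⟩
    · simp only
      rw [he', Finset.sum_empty, norm_zero]
      positivity
    rw [Finset.mem_filter] at hz₀
    have hz' := hSm z₀ hz₀.1
    have hn1 : 1 ≤ n := by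
      rw [← hz₀.2]
      exact Nat.one_le_iff_ne_zero.2 (Nat.mul_ne_zero hz'.2.2.1 hz'.2.2.2)
    have hn4 : (n : ℝ) ≤ (2 * J : ℝ) * ((M * X : ℕ) : ℝ) := by
      have h1 : n ≤ (2 * J) * (M * X) := by rw [← hz₀.2]; exact hz'.2.1.le
      exact_mod_cast h1
    have hterm : ∀ z ∈ S.filter (fun z : ℕ × ℕ => z.1 * z.2 = n), ‖c z.1 * ρ z.2‖ ≤ a * b := by
      intro z _
      rw [norm_mul]
      exact mul_le_mul (hc _) (hρ _) (norm_nonneg _) ha
    have hcard : ((S.filter fun z : ℕ × ℕ => z.1 * z.2 = n).card : ℝ) ≤ (n.divisors.card : ℝ) := by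
      have h2 : (S.filter fun z : ℕ × ℕ => z.1 * z.2 = n).card ≤ n.divisors.card := by
        refine Finset.card_le_card_of_injOn (fun z => z.1) ?_ ?_
        · intro z hz
          rw [Finset.coe_filter, Set.mem_setOf_eq] at hz
          rw [Finset.mem_coe, Nat.mem_divisors]
          exact ⟨⟨z.2, hz.2.symm⟩, by omega⟩
        · intro z hz w hw hzw
          rw [Finset.coe_filter, Set.mem_setOf_eq] at hz hw
          simp only at hzw
          have hz1 := (hSm z hz.1).2.2.1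
          refine Prod.ext hzw ?_
          have h3 : z.1 * z.2 = z.1 * w.2 := by rw [hz.2, hzw, hw.2]
          exact Nat.eq_of_mul_eq_mul_left (Nat.pos_of_ne_zero hz1) h3
      exact_mod_cast h2
    have hd : (n.divisors.card : ℝ) ≤ C₀ * (2 * J : ℝ) ^ e * ((M * X : ℕ) : ℝ) ^ e := by
      calc (n.divisors.card : ℝ) ≤ C₀ * (n : ℝ) ^ e := hdiv n hn1
        _ ≤ C₀ * ((2 * J : ℝ) * ((M * X : ℕ) : ℝ)) ^ e := by gcongr
        _ = _ := by rw [Real.mul_rpow (by positivity) (by positivity), mul_assoc]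
    calc ‖∑ z ∈ S with z.1 * z.2 = n, c z.1 * ρ z.2‖ ≤
        ∑ z ∈ S with z.1 * z.2 = n, ‖c z.1 * ρ z.2‖ := norm_sum_le _ _
      _ ≤ ∑ z ∈ S with z.1 * z.2 = n, a * b := Finset.sum_le_sum hterm
      _ = ((S.filter fun z : ℕ × ℕ => z.1 * z.2 = n).card : ℝ) * (a * b) := by
          rw [Finset.sum_const, nsmul_eq_mul]
      _ ≤ _ := mul_le_mul_of_nonneg_right (hcard.trans hd) (mul_nonneg ha hb)
  · rw [Finset.sum_mul_sum, ← Finset.sum_product',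
      ← Finset.sum_fiberwise_of_maps_to (t := Finset.Ico (M * X) ((2 * J) * (M * X)))
        (g := fun z : ℕ × ℕ => z.1 * z.2)]
    · refine Finset.sum_congr rfl fun n _ => ?_
      simp only
      rw [Finset.sum_mul]
      refine Finset.sum_congr rfl fun z hz => ?_
      rw [Finset.mem_filter] at hz
      have hz' := hSm z hz.1
      rw [← hz.2, en_mul hz'.2.2.1 hz'.2.2.2]
      ring
    · intro z hz
      have hz' := hSm z hz
      rw [Finset.mem_Ico]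
      exact ⟨hz'.1, hz'.2.1⟩

/-- the test polynomial after the shift -/
theorem TQ_shift (r : ℝ) (X : ℕ) (ρ : ℕ → ℂ) (u y : ℝ) :
    TQ r X ρ u = ∑ p ∈ Finset.Ico X (2 * X), (ρ p * en p (-(r * y))) * en p (r * (u + y)) := by
  unfold TQ
  refine Finset.sum_congr rfl fun p _ => ?_
  rw [mul_assoc]
  congr 1
  unfold en
  rw [← Complex.exp_add]
  congr 1
  push_cast
  ring

/-! ### Trivial bounds -/

/-- coefficient sums -/
theorem sum_coef {c : ℕ → ℂ} {a : ℝ} (N J : ℕ) (ha : 0 ≤ a) (hc : ∀ n, ‖c n‖ ≤ a) :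
    ∑ n ∈ Finset.Ico N (J * N), ‖c n‖ ≤ (J : ℝ) * N * a := by
  calc ∑ n ∈ Finset.Ico N (J * N), ‖c n‖ ≤ ∑ _n ∈ Finset.Ico N (J * N), a :=
        Finset.sum_le_sum fun n _ => hc n
    _ = ((J * N - N : ℕ) : ℝ) * a := by rw [Finset.sum_const, Nat.card_Ico, nsmul_eq_mul]
    _ ≤ (J : ℝ) * N * a := by
        have : ((J * N - N : ℕ) : ℝ) ≤ ((J * N : ℕ) : ℝ) := by exact_mod_cast Nat.sub_le _ _
        push_cast at this
        exact mul_le_mul_of_nonneg_right this ha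

/-- the trivial bound for a bilinear form -/
theorem triv {α β : ℕ → ℂ} {g : ℕ → ℕ → ℂ} {a b G : ℝ} (K L J J' : ℕ) (ha : 0 ≤ a) (hb : 0 ≤ b)
    (hG : 0 ≤ G) (hα : ∀ n, ‖α n‖ ≤ a) (hβ : ∀ n, ‖β n‖ ≤ b)
    (hg : ∀ n ∈ Finset.Ico K (J * K), ∀ l ∈ Finset.Ico L (J' * L), ‖g n l‖ ≤ G) :
    ‖∑ n ∈ Finset.Ico K (J * K), ∑ l ∈ Finset.Ico L (J' * L), α n * β l * g n l‖ ≤
      (J : ℝ) * J' * (a * b * (K * L) * G) := by
  have h1 : ‖∑ n ∈ Finset.Ico K (J * K), ∑ l ∈ Finset.Ico L (J' * L), α n * β l * g n l‖ ≤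
      ∑ n ∈ Finset.Ico K (J * K), ∑ l ∈ Finset.Ico L (J' * L), ‖α n‖ * ‖β l‖ * G := by
    refine (norm_sum_le _ _).trans (Finset.sum_le_sum fun n hn => ?_)
    refine (norm_sum_le _ _).trans (Finset.sum_le_sum fun l hl => ?_)
    rw [norm_mul, norm_mul]
    exact mul_le_mul_of_nonneg_left (hg n hn l hl) (by positivity)
  have h2 : ∑ n ∈ Finset.Ico K (J * K), ∑ l ∈ Finset.Ico L (J' * L), ‖α n‖ * ‖β l‖ * G =
      (∑ n ∈ Finset.Ico K (J * K), ‖α n‖) * (∑ l ∈ Finset.Ico L (J' * L), ‖β l‖) * G := by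
    rw [Finset.sum_mul_sum, Finset.sum_mul]
    refine Finset.sum_congr rfl fun n _ => ?_
    rw [Finset.sum_mul]
  rw [h2] at h1
  refine h1.trans ?_
  have h3 := sum_coef K J ha hα
  have h4 := sum_coef L J' hb hβ
  have h5 : 0 ≤ ∑ l ∈ Finset.Ico L (J' * L), ‖β l‖ := Finset.sum_nonneg fun _ _ => norm_nonneg _
  calc (∑ n ∈ Finset.Ico K (J * K), ‖α n‖) * (∑ l ∈ Finset.Ico L (J' * L), ‖β l‖) * G ≤
      ((J : ℝ) * K * a) * ((J' : ℝ) * L * b) * G :=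
        mul_le_mul_of_nonneg_right (mul_le_mul h3 h4 h5 (by positivity)) hG
    _ = _ := by ring

/-- rescaling a bilinear form -/
theorem scale2 (s1 s2 : Finset ℕ) (α β : ℕ → ℂ) (W : ℕ → ℕ → ℂ) (a b : ℝ) (ha : 0 < a)
    (hb : 0 < b) : ∑ n ∈ s1, ∑ l ∈ s2, α n * β l * W n l =
      ((a * b : ℝ) : ℂ) * ∑ n ∈ s1, ∑ l ∈ s2, (α n / a) * (β l / b) * W n l := by
  rw [Finset.mul_sum]
  refine Finset.sum_congr rfl fun n _ => ?_
  rw [Finset.mul_sum]
  refine Finset.sum_congr rfl fun k _ => ?_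
  have h1 : (a : ℂ) ≠ 0 := by exact_mod_cast ha.ne'
  have h2 : (b : ℂ) ≠ 0 := by exact_mod_cast hb.ne'
  push_cast
  field_simp

end Pool.Agent.H35.EX
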