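import Pool.Agent.H35.EX.BIRa

/-!
# Test polynomials over primes of the larger dilation: the bilinear form over all dyadic ranges
-/

set_option autoImplicit false

open Complex MeasureTheory Set Filter Topology

namespace Pool.Agent.H35.EX

open Pool.Agent.H29.EX Pool.Agent.H25.DP Pool.Agent.H25.DL Pool.Agent.H23.GLH

/-- sizes of the dyadic ranges -/
theorem sizes2 {T k k' J l A A' : ℝ} (hT : 0 < T) (hl : 0 ≤ l) (hk : 0 ≤ k)
    (hJ : 1 ≤ J) (hk' : 0 ≤ k') (hkk : k' ≤ J * k) (hA : 0 ≤ A) (hA' : 0 ≤ A')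
    (hAA : A ≤ J * A') :
    k' * l / T + k' * Real.sqrt (l * T) + l * Real.sqrt (k' * T * A) ≤
      J * (k * l / T + k * Real.sqrt (l * T) + l * Real.sqrt (k * T * A')) := by
  have b1 : k' * l / T ≤ J * (k * l / T) := by
    calc k' * l / T ≤ (J * k) * l / T := by gcongr
      _ = _ := by ring
  have b2 : k' * Real.sqrt (l * T) ≤ J * (k * Real.sqrt (l * T)) := by
    have h1 : k' * Real.sqrt (l * T) ≤ (J * k) * Real.sqrt (l * T) := by gcongr
    linarith
  have b3 : l * Real.sqrt (k' * T * A) ≤ J * (l * Real.sqrt (k * T * A')) := by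
    have h1 : Real.sqrt (k' * T * A) ≤ Real.sqrt (J ^ 2 * (k * T * A')) := by
      refine Real.sqrt_le_sqrt ?_
      calc k' * T * A ≤ (J * k) * T * (J * A') := by gcongr
        _ = _ := by ring
    have h2 : Real.sqrt (J ^ 2 * (k * T * A')) = J * Real.sqrt (k * T * A') := by
      rw [Real.sqrt_mul (by positivity), Real.sqrt_sq (by positivity)]
    rw [h2] at h1
    calc l * Real.sqrt (k' * T * A) ≤ l * (J * Real.sqrt (k * T * A')) := by gcongr
      _ = _ := by ring
  linarith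

/-- the bilinear form over all dyadic ranges -/
theorem blr_all (h1 : T_BLR) {d r : ℝ} (B η : ℝ) (q J' : ℕ) (hd : 1 < d) (hd2 : d < 5 / 2)
    (hr : 1 < r) : ∃ C T₀ : ℝ, 0 < C ∧ ∀ T : ℝ, T₀ ≤ T → 1 ≤ T →
    ∀ H W y : ℝ, T ≤ H → T / 4 ≤ W → H + W ≤ 2 * T → |y| ≤ Real.log T → ∀ (K L : ℕ)
    (α β : ℕ → ℂ) (a b A' : ℝ), 1 ≤ K → 1 ≤ L → 0 < a → 0 < b → (∀ n, ‖α n‖ ≤ a) →
    (∀ n, ‖β n‖ ≤ b) → (A' = Real.sqrt T + K / Real.sqrt T ∨
      A' = Real.sqrt K * T ^ (1 / 6 : ℝ) + K * T ^ (-(1 / 6) : ℝ)) →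
    ‖∑ n ∈ Finset.Ico K (2 ^ q * K), ∑ l ∈ Finset.Ico L (J' * L),
      α n * β l * IO d B η H W y (Real.log n + r * Real.log l)‖ ≤
    C * (a * b * ((K : ℝ) * L / T + K * Real.sqrt (L * T) + L * Real.sqrt (K * T * A'))) := by
  obtain ⟨C, T₀, hC, hB⟩ := h1 d B η r J' hd hd2 hr
  set J : ℝ := 2 ^ q with hJ
  have hJ1 : 1 ≤ J := one_le_pow₀ (by norm_num)
  refine ⟨(q + 1) * (C * J), T₀, by positivity, fun T hT hT1 H W y hH hW hHW hy K L α β a b A' hK
    hL ha hb hα hβ hA' => ?_⟩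
  have hT0 : 0 < T := by linarith
  have hk1 : (1 : ℝ) ≤ K := by exact_mod_cast hK
  have hA'0 : 0 ≤ A' := by rcases hA' with rfl | rfl <;> positivity
  set M3 : ℝ := (K : ℝ) * L / T + K * Real.sqrt (L * T) + L * Real.sqrt (K * T * A') with hM3
  have hM30 : 0 ≤ M3 := by positivity
  have hpiece : ∀ i ∈ Finset.range q, ‖∑ n ∈ Finset.Ico (2 ^ i * K) (2 * (2 ^ i * K)),
      ∑ l ∈ Finset.Ico L (J' * L),
      α n * β l * IO d B η H W y (Real.log n + r * Real.log l)‖ ≤ C * J * (a * b * M3) := by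
    intro i hi
    have hi' : (2 : ℝ) ^ i ≤ J := pow_le_pow_right₀ (by norm_num) (Finset.mem_range.1 hi).le
    have hk'1 : 1 ≤ 2 ^ i * K := Nat.one_le_iff_ne_zero.2 (by positivity)
    have hkk : ((2 ^ i * K : ℕ) : ℝ) ≤ J * K := by
      push_cast
      gcongr
    obtain ⟨A, hA0, hAA, hAf⟩ : ∃ A : ℝ, 0 ≤ A ∧ A ≤ J * A' ∧
        (A = Real.sqrt T + ((2 ^ i * K : ℕ) : ℝ) / Real.sqrt T ∨
          A = Real.sqrt ((2 ^ i * K : ℕ) : ℝ) * T ^ (1 / 6 : ℝ) +
            ((2 ^ i * K : ℕ) : ℝ) * T ^ (-(1 / 6) : ℝ)) := by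
      rcases hA' with rfl | rfl
      · exact ⟨_, by positivity, (Pool.Agent.H19.DP.BIL.forms hT1 hk1 hJ1 hkk).1, Or.inl rfl⟩
      · exact ⟨_, by positivity, (Pool.Agent.H19.DP.BIL.forms hT1 hk1 hJ1 hkk).2, Or.inr rfl⟩
    have hBk := hB T hT H W y hH hW hHW hy (2 ^ i * K) L (fun n => α n / (a : ℂ))
      (fun n => β n / (b : ℂ)) A hk'1 hL
      (fun n => by
        rw [norm_div, Complex.norm_real, Real.norm_of_nonneg ha.le, div_le_one ha]
        exact hα n)
      (fun n => by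
        rw [norm_div, Complex.norm_real, Real.norm_of_nonneg hb.le, div_le_one hb]
        exact hβ n) hA0 hAf
    rw [scale2 _ _ α β (fun n l => IO d B η H W y (Real.log n + r * Real.log l)) a b ha hb,
      norm_mul, Complex.norm_real, Real.norm_of_nonneg (by positivity)]
    have hsz := sizes2 (l := (L : ℝ)) hT0 (Nat.cast_nonneg L) (Nat.cast_nonneg K) hJ1
      (Nat.cast_nonneg (2 ^ i * K)) hkk hA0 hA'0 hAA
    calc a * b * _ ≤ a * b * (C * (J * M3)) :=
          mul_le_mul_of_nonneg_left (hBk.trans (mul_le_mul_of_nonneg_left hsz hC.le))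
            (by positivity)
      _ = _ := by ring
  rw [Pool.Agent.H19.DP.BIL.dyadic (fun n => ∑ l ∈ Finset.Ico L (J' * L),
      α n * β l * IO d B η H W y (Real.log n + r * Real.log l)) K q]
  refine (norm_sum_le _ _).trans ((Finset.sum_le_card_nsmul _ _ _ hpiece).trans ?_)
  rw [Finset.card_range, nsmul_eq_mul]
  have h5 : 0 ≤ C * J * (a * b * M3) := by positivity
  calc (q : ℝ) * (C * J * (a * b * M3)) ≤ (q + 1) * (C * J * (a * b * M3)) := by
        gcongr
        linarith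
    _ = _ := by ring

/-- the window: if the frequency is close to a stationary one for some pair then the sizes are
related -/
theorem window {d B r T y u : ℝ} (K L J J' n l : ℕ) (hd : 0 < d) (hr : 0 < r) (hT : 4 ≤ T)
    (hy : |y| ≤ Real.log T) (hy2 : Real.log T ≤ T / 2) (hu1 : T ≤ u) (hu2 : u ≤ 2 * T)
    (hK : 1 ≤ K) (hL : 1 ≤ L) (hn : n ∈ Finset.Ico K (J * K)) (hl : l ∈ Finset.Ico L (J' * L))
    (h : |d * Real.log (u + y) + d + B - (Real.log n + r * Real.log l)| < 1 / 2) :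
    |Real.log K + r * Real.log L - d * Real.log T| ≤
      1 / 2 + |B| + 3 * d + Real.log J + r * Real.log J' := by
  rw [Finset.mem_Ico] at hn hl
  have hT0 : 0 < T := by linarith
  have hk1 : (1 : ℝ) ≤ K := by exact_mod_cast hK
  have hl1 : (1 : ℝ) ≤ L := by exact_mod_cast hL
  have hn1 : (K : ℝ) ≤ n := by exact_mod_cast hn.1
  have hn2 : (n : ℝ) ≤ J * K := by exact_mod_cast hn.2.le
  have hl2 : (L : ℝ) ≤ l := by exact_mod_cast hl.1
  have hl3 : (l : ℝ) ≤ J' * L := by exact_mod_cast hl.2.le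
  have hJ : (1 : ℝ) ≤ J := by
    have : 1 ≤ J := by
      by_contra hJ
      have : J = 0 := by omega
      rw [this] at hn
      omega
    exact_mod_cast this
  have hJ' : (1 : ℝ) ≤ J' := by
    have : 1 ≤ J' := by
      by_contra hJ
      have : J' = 0 := by omega
      rw [this] at hl
      omega
    exact_mod_cast this
  obtain ⟨y1, y2⟩ := abs_le.1 hy
  have hv1 : T / 2 ≤ u + y := by linarith
  have hv2 : u + y ≤ 3 * T := by linarith
  have e1 : Real.log n ≤ Real.log J + Real.log K := by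
    rw [← Real.log_mul (by positivity) (by positivity)]
    exact Real.log_le_log (by linarith) hn2
  have e2 : Real.log K ≤ Real.log n := Real.log_le_log (by linarith) hn1
  have e3 : Real.log l ≤ Real.log J' + Real.log L := by
    rw [← Real.log_mul (by positivity) (by positivity)]
    exact Real.log_le_log (by linarith) hl3
  have e4 : Real.log L ≤ Real.log l := Real.log_le_log (by linarith) hl2
  have e5 : Real.log (u + y) ≤ Real.log T + 2 := by
    have h3 : Real.log (u + y) ≤ Real.log (3 * T) := Real.log_le_log (by linarith) hv2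
    rw [Real.log_mul (by norm_num) hT0.ne'] at h3
    have h4 : Real.log 3 ≤ 2 := by
      have := Real.log_le_sub_one_of_pos (show (0 : ℝ) < 3 by norm_num)
      linarith
    linarith
  have e6 : Real.log T - 1 ≤ Real.log (u + y) := by
    have h3 : Real.log (T / 2) ≤ Real.log (u + y) := Real.log_le_log (by linarith) hv1
    rw [Real.log_div hT0.ne' (by norm_num)] at h3
    have h4 : Real.log 2 ≤ 1 := by
      have := Real.log_le_sub_one_of_pos (show (0 : ℝ) < 2 by norm_num)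
      linarith
    linarith
  have e7 : 0 ≤ Real.log J := Real.log_nonneg hJ
  have e8 : 0 ≤ Real.log J' := Real.log_nonneg hJ'
  have f1 : d * Real.log (u + y) ≤ d * (Real.log T + 2) := mul_le_mul_of_nonneg_left e5 hd.le
  have f2 : d * (Real.log T - 1) ≤ d * Real.log (u + y) := mul_le_mul_of_nonneg_left e6 hd.le
  have f3 : r * Real.log l ≤ r * (Real.log J' + Real.log L) := mul_le_mul_of_nonneg_left e3 hr.le
  have f4 : r * Real.log L ≤ r * Real.log l := mul_le_mul_of_nonneg_left e4 hr.le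
  have f5 : 0 ≤ r * Real.log J' := mul_nonneg hr.le e8
  obtain ⟨g1, g2⟩ := abs_lt.1 h
  obtain ⟨g3, g4⟩ := abs_le.1 (le_refl |B|)
  rw [abs_le]
  constructor <;> linarith

end Pool.Agent.H35.EX
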