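import Pool.Agent.H35.EX.BIRb

/-!
# Test polynomials over primes of the larger dilation: sizes
-/

set_option autoImplicit false

open Complex MeasureTheory Set Filter Topology

namespace Pool.Agent.H35.EX

/-- the sum over all pairs with the trivial bound -/
theorem num0 {T K L e : ℝ} (hT : 1 ≤ T) (hK : 1 ≤ K) (hL : 1 ≤ L) (he : 0 < e)
    (h : Real.log K + Real.log L ≤ 3 / 2 * Real.log T) :
    K ^ (e - 1 / 2) * L ^ (2 * e - 1 / 2) * (K * L) ≤ T ^ (3 / 4 + 3 * e) := by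
  have hT0 : 0 < T := by linarith
  have hK0 : 0 < K := by linarith
  have hL0 : 0 < L := by linarith
  have ht : 0 ≤ Real.log T := Real.log_nonneg hT
  have hk : 0 ≤ Real.log K := Real.log_nonneg hK
  have hm : 0 ≤ Real.log L := Real.log_nonneg hL
  obtain ⟨t, rfl⟩ : ∃ t, T = Real.exp t := ⟨Real.log T, (Real.exp_log hT0).symm⟩
  obtain ⟨k, rfl⟩ : ∃ t, K = Real.exp t := ⟨Real.log K, (Real.exp_log hK0).symm⟩
  obtain ⟨m, rfl⟩ : ∃ t, L = Real.exp t := ⟨Real.log L, (Real.exp_log hL0).symm⟩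
  simp only [Real.log_exp] at *
  have p1 : 0 ≤ e * k := mul_nonneg he.le hk
  have p2 : e * (k + m) ≤ e * (3 / 2 * t) := mul_le_mul_of_nonneg_left h he.le
  rw [← Real.exp_mul, ← Real.exp_mul, ← Real.exp_mul, ← Real.exp_add, ← Real.exp_add,
    ← Real.exp_add]
  refine Real.exp_le_exp.2 ?_
  linarith

/-- the trivial bound with the second derivative test -/
theorem num1 {T K L e z : ℝ} (hT : 1 ≤ T) (hK : 1 ≤ K) (hL : 1 ≤ L) (he : 0 < e)
    (h : Real.log K + Real.log L ≤ 3 / 2 * Real.log T)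
    (h2 : Real.log K + Real.log L ≤ (1 - z) * Real.log T) :
    K ^ (e - 1 / 2) * L ^ (2 * e - 1 / 2) * (K * L) * Real.sqrt T ≤ T ^ (1 - z / 2 + 3 * e) := by
  have hT0 : 0 < T := by linarith
  have hK0 : 0 < K := by linarith
  have hL0 : 0 < L := by linarith
  have ht : 0 ≤ Real.log T := Real.log_nonneg hT
  have hk : 0 ≤ Real.log K := Real.log_nonneg hK
  have hm : 0 ≤ Real.log L := Real.log_nonneg hL
  obtain ⟨t, rfl⟩ : ∃ t, T = Real.exp t := ⟨Real.log T, (Real.exp_log hT0).symm⟩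
  obtain ⟨k, rfl⟩ : ∃ t, K = Real.exp t := ⟨Real.log K, (Real.exp_log hK0).symm⟩
  obtain ⟨m, rfl⟩ : ∃ t, L = Real.exp t := ⟨Real.log L, (Real.exp_log hL0).symm⟩
  simp only [Real.log_exp] at *
  have p1 : 0 ≤ e * k := mul_nonneg he.le hk
  have p2 : e * (k + m) ≤ e * (3 / 2 * t) := mul_le_mul_of_nonneg_left h he.le
  have s : ∀ a : ℝ, Real.sqrt (Real.exp a) = Real.exp (a / 2) := fun a => (Real.exp_half a).symm
  rw [s, ← Real.exp_mul, ← Real.exp_mul, ← Real.exp_mul, ← Real.exp_add, ← Real.exp_add,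
    ← Real.exp_add, ← Real.exp_add]
  refine Real.exp_le_exp.2 ?_
  linarith

/-- square root of a product with a sum -/
theorem sqrt_two (a x y : ℝ) :
    Real.sqrt (Real.exp a * (Real.exp x + Real.exp y)) ≤
      Real.exp ((a + x) / 2) + Real.exp ((a + y) / 2) := by
  rw [mul_add, ← Real.exp_add, ← Real.exp_add]
  rw [Real.sqrt_le_left (by positivity)]
  have h1 : Real.exp (a + x) = Real.exp ((a + x) / 2) ^ 2 := by
    rw [sq, ← Real.exp_add]; congr 1; ring
  have h2 : Real.exp (a + y) = Real.exp ((a + y) / 2) ^ 2 := by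
    rw [sq, ← Real.exp_add]; congr 1; ring
  rw [h1, h2]
  have h3 := Real.exp_pos ((a + x) / 2)
  have h4 := Real.exp_pos ((a + y) / 2)
  nlinarith [mul_pos h3 h4]

/-- the three terms of the bilinear bound -/
theorem three {t k m e z x y : ℝ} (ht : 0 ≤ t) (hk : 0 ≤ k) (he : 0 < e)
    (hz : z ≤ 1 / 4) (h : k + m ≤ 3 / 2 * t) (h1 : k ≤ (1 - z) * t)
    (h2 : m + x ≤ (1 - z) * t) (h3 : m + y ≤ (1 - z) * t) :
    Real.exp (k * (e - 1 / 2)) * Real.exp (m * (2 * e - 1 / 2)) *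
      (Real.exp k * Real.exp m / Real.exp t + Real.exp k * Real.sqrt (Real.exp m * Real.exp t) +
        Real.exp m * Real.sqrt (Real.exp k * Real.exp t * (Real.exp x + Real.exp y))) ≤
      4 * Real.exp (t * (1 - z / 2 + 3 * e)) := by
  have p1 : 0 ≤ e * k := mul_nonneg he.le hk
  have p2 : e * (k + m) ≤ e * (3 / 2 * t) := mul_le_mul_of_nonneg_left h he.le
  have p3 : z * t ≤ 1 / 4 * t := mul_le_mul_of_nonneg_right hz ht
  have s : ∀ a : ℝ, Real.sqrt (Real.exp a) = Real.exp (a / 2) := fun a => (Real.exp_half a).symm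
  have q0 : 0 < Real.exp (k * (e - 1 / 2)) * Real.exp (m * (2 * e - 1 / 2)) := by positivity
  have t1 : Real.exp (k * (e - 1 / 2)) * Real.exp (m * (2 * e - 1 / 2)) *
      (Real.exp k * Real.exp m / Real.exp t) ≤ Real.exp (t * (1 - z / 2 + 3 * e)) := by
    rw [← Real.exp_add, ← Real.exp_add, ← Real.exp_sub, ← Real.exp_add]
    exact Real.exp_le_exp.2 (by linarith)
  have t2 : Real.exp (k * (e - 1 / 2)) * Real.exp (m * (2 * e - 1 / 2)) *
      (Real.exp k * Real.sqrt (Real.exp m * Real.exp t)) ≤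
        Real.exp (t * (1 - z / 2 + 3 * e)) := by
    rw [← Real.exp_add, ← Real.exp_add, s, ← Real.exp_add, ← Real.exp_add]
    exact Real.exp_le_exp.2 (by linarith)
  have t3 : Real.exp (k * (e - 1 / 2)) * Real.exp (m * (2 * e - 1 / 2)) *
      (Real.exp m * Real.sqrt (Real.exp k * Real.exp t * (Real.exp x + Real.exp y))) ≤
        2 * Real.exp (t * (1 - z / 2 + 3 * e)) := by
    rw [← Real.exp_add k t]
    refine (mul_le_mul_of_nonneg_left (mul_le_mul_of_nonneg_left (sqrt_two _ _ _)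
      (Real.exp_pos m).le) q0.le).trans ?_
    rw [← Real.exp_add, mul_add, mul_add, ← Real.exp_add, ← Real.exp_add, ← Real.exp_add,
      ← Real.exp_add, two_mul (Real.exp (t * (1 - z / 2 + 3 * e)))]
    exact add_le_add (Real.exp_le_exp.2 (by linarith)) (Real.exp_le_exp.2 (by linarith))
  rw [mul_add, mul_add]
  linarith

/-- the bilinear bound in the two cases -/
theorem num2 {T K L e z : ℝ} (hT : 1 ≤ T) (hK : 1 ≤ K) (hL : 1 ≤ L) (he : 0 < e)
    (hz : z ≤ 1 / 4) (h : Real.log K + Real.log L ≤ 3 / 2 * Real.log T)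
    (h1 : Real.log K ≤ (1 - z) * Real.log T)
    (h2 : (Real.log L ≤ (1 / 2 - z) * Real.log T ∧
      Real.log K + Real.log L ≤ (3 / 2 - z) * Real.log T) ∨
      (Real.log L + Real.log K / 2 ≤ (5 / 6 - z) * Real.log T ∧
        Real.log K + Real.log L ≤ (7 / 6 - z) * Real.log T)) :
    ∃ A : ℝ, (A = Real.sqrt T + K / Real.sqrt T ∨
      A = Real.sqrt K * T ^ (1 / 6 : ℝ) + K * T ^ (-(1 / 6) : ℝ)) ∧
      K ^ (e - 1 / 2) * L ^ (2 * e - 1 / 2) *
        (K * L / T + K * Real.sqrt (L * T) + L * Real.sqrt (K * T * A)) ≤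
      4 * T ^ (1 - z / 2 + 3 * e) := by
  have hT0 : 0 < T := by linarith
  have hK0 : 0 < K := by linarith
  have hL0 : 0 < L := by linarith
  have ht : 0 ≤ Real.log T := Real.log_nonneg hT
  have hk : 0 ≤ Real.log K := Real.log_nonneg hK
  obtain ⟨t, rfl⟩ : ∃ t, T = Real.exp t := ⟨Real.log T, (Real.exp_log hT0).symm⟩
  obtain ⟨k, rfl⟩ : ∃ t, K = Real.exp t := ⟨Real.log K, (Real.exp_log hK0).symm⟩
  obtain ⟨m, rfl⟩ : ∃ t, L = Real.exp t := ⟨Real.log L, (Real.exp_log hL0).symm⟩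
  simp only [Real.log_exp] at *
  have s : ∀ a : ℝ, Real.sqrt (Real.exp a) = Real.exp (a / 2) := fun a => (Real.exp_half a).symm
  rcases h2 with ⟨h2, h3⟩ | ⟨h2, h3⟩
  · refine ⟨_, Or.inl rfl, ?_⟩
    have e1 : Real.sqrt (Real.exp t) + Real.exp k / Real.sqrt (Real.exp t) =
        Real.exp (t / 2) + Real.exp (k - t / 2) := by rw [s, Real.exp_sub]
    rw [e1, ← Real.exp_mul, ← Real.exp_mul, ← Real.exp_mul]
    exact three ht hk he hz h h1 (by linarith) (by linarith)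
  · refine ⟨_, Or.inr rfl, ?_⟩
    have e1 : Real.sqrt (Real.exp k) * Real.exp t ^ (1 / 6 : ℝ) +
        Real.exp k * Real.exp t ^ (-(1 / 6) : ℝ) =
        Real.exp (k / 2 + t / 6) + Real.exp (k - t / 6) := by
      rw [s, ← Real.exp_mul, ← Real.exp_mul, ← Real.exp_add, ← Real.exp_add]
      congr 2 <;> ring
    rw [e1, ← Real.exp_mul, ← Real.exp_mul, ← Real.exp_mul]
    exact three ht hk he hz h h1 (by linarith) (by linarith)

/-- the bound for the coefficients of the product -/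
theorem coefb {M X e C₁ C₂ : ℝ} (hM : 1 ≤ M) (hX : 1 ≤ X) (he : 0 < e) (h1 : 0 ≤ C₁)
    (h2 : 0 ≤ C₂) : C₁ * (M * X) ^ e * ((C₂ * M ^ (e - 1 / 2)) * X ^ (-(1 / 2) : ℝ)) ≤
      (C₁ * C₂) * (M * X) ^ (2 * e - 1 / 2) := by
  have hM0 : 0 < M := by linarith
  have hX0 : 0 < X := by linarith
  have e1 : (M * X) ^ (2 * e - 1 / 2) = (M * X) ^ e * (M ^ (e - 1 / 2) * X ^ (e - 1 / 2)) := by
    rw [← Real.mul_rpow hM0.le hX0.le, ← Real.rpow_add (by positivity)]
    congr 1; ring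
  have e2 : X ^ (-(1 / 2) : ℝ) ≤ X ^ (e - 1 / 2) :=
    Real.rpow_le_rpow_of_exponent_le hX (by linarith)
  rw [e1]
  calc C₁ * (M * X) ^ e * ((C₂ * M ^ (e - 1 / 2)) * X ^ (-(1 / 2) : ℝ)) ≤
      C₁ * (M * X) ^ e * ((C₂ * M ^ (e - 1 / 2)) * X ^ (e - 1 / 2)) := by gcongr
    _ = _ := by ring

end Pool.Agent.H35.EX
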