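import Pool.Agent.H35.EX.BIRc

/-!
# Test polynomials over primes of the larger dilation: the main term
-/

set_option autoImplicit false

open Complex MeasureTheory Set Filter Topology

namespace Pool.Agent.H35.EX

open Pool.Agent.H29.EX Pool.Agent.H25.DP Pool.Agent.H25.DL Pool.Agent.H23.GLH

/-- the main term -/
theorem Sbound (h1 : T_BLR) (h4 : T_IOA) (h5 : T_IOB) {d r ω₁ D z e C₁ C₂ : ℝ} (B η : ℝ)
    (q J' : ℕ) (hd0 : 0 < d) (hd2 : d < 5 / 2) (hr : 1 < r) (hz0 : 0 < z) (hz1 : z ≤ 1 / 4)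
    (he : 0 < e) (hC₁ : 0 < C₁) (hC₂ : 0 < C₂)
    (hexp : ∀ ν l : ℝ, 0 ≤ ν → ν ≤ D → ω₁ ≤ l →
      |ν + r * l - d| ≤ z → ν + l ≤ 1 - z ∨
        (1 < d ∧ ν ≤ 1 - z ∧ l ≤ 1 / 2 - z ∧ ν + l ≤ 3 / 2 - z) ∨
        (1 < d ∧ ν ≤ 1 - z ∧ l + ν / 2 ≤ 5 / 6 - z ∧ ν + l ≤ 7 / 6 - z)) :
    ∃ Q T₀ : ℝ, 0 < Q ∧ ∀ T : ℝ, T₀ ≤ T → ∀ (y : ℝ) (K L : ℕ) (α β : ℕ → ℂ), |y| ≤ Real.log T →
      1 ≤ K → 1 ≤ L → Real.log K ≤ D * Real.log T → ω₁ * Real.log T ≤ Real.log L →
      Real.log K + Real.log L ≤ 3 / 2 * Real.log T →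
      (∀ n, ‖α n‖ ≤ C₁ * (K : ℝ) ^ (e - 1 / 2)) → (∀ n, ‖β n‖ ≤ C₂ * (L : ℝ) ^ (2 * e - 1 / 2)) →
      ‖∑ n ∈ Finset.Ico K (2 ^ q * K), ∑ l ∈ Finset.Ico L (J' * L),
        α n * β l * IO d B η (5 * T / 4) (T / 2) y (Real.log n + r * Real.log l)‖ ≤
      Q * (T ^ (3 / 4 + 3 * e) + T ^ (1 - z / 2 + 3 * e)) := by
  obtain ⟨CA, TA, hCA, hA⟩ := h4 d B η hd0
  obtain ⟨CB, TB, hCB, hB⟩ := h5 d B η hd0
  obtain ⟨CR, TR, hCR, hR⟩ : ∃ CR TR : ℝ, 0 < CR ∧ (1 < d → ∀ T : ℝ, TR ≤ T → 1 ≤ T →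
      ∀ H W y : ℝ, T ≤ H → T / 4 ≤ W → H + W ≤ 2 * T → |y| ≤ Real.log T → ∀ (K L : ℕ)
      (α β : ℕ → ℂ) (a b A' : ℝ), 1 ≤ K → 1 ≤ L → 0 < a → 0 < b → (∀ n, ‖α n‖ ≤ a) →
      (∀ n, ‖β n‖ ≤ b) → (A' = Real.sqrt T + K / Real.sqrt T ∨
        A' = Real.sqrt K * T ^ (1 / 6 : ℝ) + K * T ^ (-(1 / 6) : ℝ)) →
      ‖∑ n ∈ Finset.Ico K (2 ^ q * K), ∑ l ∈ Finset.Ico L (J' * L),
        α n * β l * IO d B η H W y (Real.log n + r * Real.log l)‖ ≤
      CR * (a * b * ((K : ℝ) * L / T + K * Real.sqrt (L * T) +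
        L * Real.sqrt (K * T * A')))) := by
    by_cases hd : 1 < d
    · obtain ⟨C, T₀, hC, h⟩ := blr_all h1 B η q J' hd hd2 hr
      exact ⟨C, T₀, hC, fun _ => h⟩
    · exact ⟨1, 0, one_pos, fun h => absurd h hd⟩
  set c₃ : ℝ := 1 / 2 + |B| + 3 * d + Real.log ((2 ^ q : ℕ) : ℝ) + r * Real.log J' with hc₃
  obtain ⟨T₁, hT₁⟩ := eventually_atTop.1 (Real.tendsto_log_atTop.eventually_ge_atTop (c₃ / z))
  obtain ⟨T₂, hT₂⟩ := eventually_atTop.1 ((Real.isLittleO_log_id_atTop.bound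
    (show (0 : ℝ) < 1 / 2 by norm_num)))
  refine ⟨C₁ * C₂ * (2 ^ q * J' * (8 * CB + CA) + 4 * CR),
    max (max TA TB) (max (max TR T₁) (max T₂ 16)), by positivity,
    fun T hT y K L α β hy hK hL hKD hLω hKL hα hβ => ?_⟩
  have hTA : TA ≤ T := ((le_max_left _ _).trans (le_max_left _ _)).trans hT
  have hTB : TB ≤ T := ((le_max_right _ _).trans (le_max_left _ _)).trans hT
  have hTR : TR ≤ T :=
    ((le_max_left _ _).trans ((le_max_left _ _).trans (le_max_right _ _))).trans hT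
  have hTT1 : T₁ ≤ T :=
    ((le_max_right _ _).trans ((le_max_left _ _).trans (le_max_right _ _))).trans hT
  have hTT2 : T₂ ≤ T :=
    ((le_max_left _ _).trans ((le_max_right _ _).trans (le_max_right _ _))).trans hT
  have hT16 : 16 ≤ T :=
    ((le_max_right _ _).trans ((le_max_right _ _).trans (le_max_right _ _))).trans hT
  have hT1 : 1 ≤ T := by linarith
  have hT0 : 0 < T := by linarith
  have hlog0 : 0 < Real.log T := Real.log_pos (by linarith)
  have hlogT : Real.log T ≤ T / 2 := by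
    have h := hT₂ T hTT2
    rw [Real.norm_of_nonneg hlog0.le, id, Real.norm_of_nonneg hT0.le] at h
    linarith
  have hc₃T : c₃ ≤ z * Real.log T := by
    have h := hT₁ T hTT1
    rw [div_le_iff₀ hz0] at h
    linarith
  have hk1 : (1 : ℝ) ≤ K := by exact_mod_cast hK
  have hl1 : (1 : ℝ) ≤ L := by exact_mod_cast hL
  set a : ℝ := C₁ * (K : ℝ) ^ (e - 1 / 2) with ha
  set b : ℝ := C₂ * (L : ℝ) ^ (2 * e - 1 / 2) with hb
  have ha0 : 0 < a := by positivity
  have hb0 : 0 < b := by positivity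
  have hT34 : 0 ≤ T ^ (3 / 4 + 3 * e) := by positivity
  have hT1z : 0 ≤ T ^ (1 - z / 2 + 3 * e) := by positivity
  have hJc : ((2 ^ q : ℕ) : ℝ) = 2 ^ q := by push_cast; rfl
  by_cases hfar : ∀ n ∈ Finset.Ico K (2 ^ q * K), ∀ l ∈ Finset.Ico L (J' * L),
      ∀ u ∈ Icc (5 * T / 4) (5 * T / 4 + T / 2),
        1 / 2 ≤ |d * Real.log (u + y) + d + B - (Real.log n + r * Real.log l)|
  · have hg : ∀ n ∈ Finset.Ico K (2 ^ q * K), ∀ l ∈ Finset.Ico L (J' * L),
        ‖IO d B η (5 * T / 4) (T / 2) y (Real.log n + r * Real.log l)‖ ≤ 8 * CB := by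
      intro n hn l hl
      have h := hB T hTB (5 * T / 4) (T / 2) y (Real.log n + r * Real.log l) (1 / 2)
        (by linarith) hlogT (by linarith) hy
        (by rw [div_div, mul_comm, ← div_div, div_self hT0.ne']) (hfar n hn l hl)
      refine h.trans ?_
      rw [div_le_iff₀ (by positivity)]
      nlinarith
    refine (triv K L (2 ^ q) J' ha0.le hb0.le (by positivity) hα hβ hg).trans ?_
    rw [hJc]
    have hn := num0 hT1 hk1 hl1 he hKL
    calc (2 : ℝ) ^ q * J' * (a * b * (K * L) * (8 * CB)) =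
        C₁ * C₂ * (2 ^ q * J' * (8 * CB)) *
          ((K : ℝ) ^ (e - 1 / 2) * (L : ℝ) ^ (2 * e - 1 / 2) * (K * L)) := by
          rw [ha, hb]; ring
      _ ≤ C₁ * C₂ * (2 ^ q * J' * (8 * CB)) * T ^ (3 / 4 + 3 * e) := by gcongr
      _ ≤ C₁ * C₂ * (2 ^ q * J' * (8 * CB + CA) + 4 * CR) *
          (T ^ (3 / 4 + 3 * e) + T ^ (1 - z / 2 + 3 * e)) := by
          refine mul_le_mul ?_ (by linarith) hT34 (by positivity)
          refine mul_le_mul_of_nonneg_left ?_ (by positivity)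
          have : (2 : ℝ) ^ q * J' * (8 * CB) ≤ 2 ^ q * J' * (8 * CB + CA) := by
            gcongr
            linarith
          linarith
  · push Not at hfar
    obtain ⟨n, hn, l, hl, u, hu, hnear⟩ := hfar
    have hwin := window (J := 2 ^ q) K L J' n l hd0 (by linarith) (by linarith) hy hlogT
      (by linarith [hu.1]) (by linarith [hu.2]) hK hL hn hl hnear
    have hwin2 := hwin.trans hc₃T
    have hex := hexp (Real.log K / Real.log T) (Real.log L / Real.log T)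
      (div_nonneg (Real.log_nonneg hk1) hlog0.le) (by rw [div_le_iff₀ hlog0]; exact hKD)
      (by rw [le_div_iff₀ hlog0]; exact hLω) (by
        have e1 : Real.log K / Real.log T + r * (Real.log L / Real.log T) - d =
            (Real.log K + r * Real.log L - d * Real.log T) / Real.log T := by
          field_simp
        rw [e1, abs_div, abs_of_pos hlog0, div_le_iff₀ hlog0]
        exact hwin2)
    have u1 : ∀ s : ℝ, Real.log K / Real.log T + Real.log L / Real.log T ≤ s →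
        Real.log K + Real.log L ≤ s * Real.log T := by
      intro s hs
      rwa [← add_div, div_le_iff₀ hlog0] at hs
    rcases hex with h0 | ⟨hd, hν, h0⟩ | ⟨hd, hν, h0⟩
    · have hg : ∀ n ∈ Finset.Ico K (2 ^ q * K), ∀ l ∈ Finset.Ico L (J' * L),
          ‖IO d B η (5 * T / 4) (T / 2) y (Real.log n + r * Real.log l)‖ ≤
            CA * Real.sqrt T := by
        intro n _ l _
        refine (hA T hTA (5 * T / 4) (T / 2) y _ (by linarith) (by linarith) (by linarith)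
          hy).trans ?_
        exact mul_le_mul_of_nonneg_left (min_le_right _ _) hCA.le
      refine (triv K L (2 ^ q) J' ha0.le hb0.le (by positivity) hα hβ hg).trans ?_
      rw [hJc]
      have hn := num1 hT1 hk1 hl1 he hKL (u1 _ h0)
      calc (2 : ℝ) ^ q * J' * (a * b * (K * L) * (CA * Real.sqrt T)) =
          C₁ * C₂ * (2 ^ q * J' * CA) *
            ((K : ℝ) ^ (e - 1 / 2) * (L : ℝ) ^ (2 * e - 1 / 2) * (K * L) * Real.sqrt T) := by
            rw [ha, hb]; ring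
        _ ≤ C₁ * C₂ * (2 ^ q * J' * CA) * T ^ (1 - z / 2 + 3 * e) := by gcongr
        _ ≤ C₁ * C₂ * (2 ^ q * J' * (8 * CB + CA) + 4 * CR) *
            (T ^ (3 / 4 + 3 * e) + T ^ (1 - z / 2 + 3 * e)) := by
            refine mul_le_mul ?_ (by linarith) hT1z (by positivity)
            refine mul_le_mul_of_nonneg_left ?_ (by positivity)
            have : (2 : ℝ) ^ q * J' * CA ≤ 2 ^ q * J' * (8 * CB + CA) := by
              gcongr
              linarith
            linarith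
    all_goals
      have hcase : (Real.log L ≤ (1 / 2 - z) * Real.log T ∧
          Real.log K + Real.log L ≤ (3 / 2 - z) * Real.log T) ∨
          (Real.log L + Real.log K / 2 ≤ (5 / 6 - z) * Real.log T ∧
            Real.log K + Real.log L ≤ (7 / 6 - z) * Real.log T) := by
        first
        | refine Or.inl ⟨?_, u1 _ h0.2⟩
          have := h0.1
          rwa [div_le_iff₀ hlog0] at this
        | refine Or.inr ⟨?_, u1 _ h0.2⟩
          have h7 := h0.1
          have e2 : Real.log L / Real.log T + Real.log K / Real.log T / 2 =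
            (Real.log L + Real.log K / 2) / Real.log T := by ring
          rwa [e2, div_le_iff₀ hlog0] at h7
      have hν' : Real.log K ≤ (1 - z) * Real.log T := by rwa [div_le_iff₀ hlog0] at hν
      obtain ⟨A, hAf, hAb⟩ := num2 hT1 hk1 hl1 he hz1 hKL hν' hcase
      have hfin := hR hd T hTR hT1 (5 * T / 4) (T / 2) y (by linarith) (by linarith)
        (by linarith) hy K L α β a b A hK hL ha0 hb0 hα hβ hAf
      refine hfin.trans ?_
      calc CR * (a * b * ((K : ℝ) * L / T + K * Real.sqrt (L * T) +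
            L * Real.sqrt (K * T * A))) =
          C₁ * C₂ * CR * ((K : ℝ) ^ (e - 1 / 2) * (L : ℝ) ^ (2 * e - 1 / 2) *
            ((K : ℝ) * L / T + K * Real.sqrt (L * T) + L * Real.sqrt (K * T * A))) := by
            rw [ha, hb]; ring
        _ ≤ C₁ * C₂ * CR * (4 * T ^ (1 - z / 2 + 3 * e)) := by gcongr
        _ = C₁ * C₂ * (4 * CR) * T ^ (1 - z / 2 + 3 * e) := by ring
        _ ≤ C₁ * C₂ * (2 ^ q * J' * (8 * CB + CA) + 4 * CR) *
            (T ^ (3 / 4 + 3 * e) + T ^ (1 - z / 2 + 3 * e)) := by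
            refine mul_le_mul ?_ (by linarith) hT1z (by positivity)
            refine mul_le_mul_of_nonneg_left ?_ (by positivity)
            have : 0 ≤ (2 : ℝ) ^ q * J' * (8 * CB + CA) := by positivity
            linarith

end Pool.Agent.H35.EX
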